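import Mathlib
import Pool.Agent.H77.Code.Incl
import Pool.Agent.H97.Sum.Rem
import Pool.Agent.H5.Goddyn.Perm

set_option autoImplicit false

/-!
Permutation graphs without a removable circuit (MP_a46c6f_co): a word with a side which has a faithful
circuit cover splits; in particular a word with a side without own edges.
-/

namespace Pool.Agent.H74.WC

open SimpleGraph Pool.Agent.H5.Goddyn Pool.Agent.H98.TC Pool.Agent.H64.Pent Pool.Agent.H77.Code

variable {V : Type*}

/-- a weight with the values `0` and `1` whose support has the degrees `0` and `2` has a faithful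
circuit cover -/
theorem fcc_of_cycles [Finite V] (G : SimpleGraph V) (w : Sym2 V → ℕ)
    (h1 : ∀ e ∈ G.edgeSet, w e ≤ 1)
    (h2 : ∀ v, ((support G w).neighborSet v).Nonempty → ((support G w).neighborSet v).ncard = 2) :
    HasFaithfulCircuitCover G w := by
  classical
  set H : SimpleGraph V := support G w with hHdef
  have hadj : ∀ u v, H.Adj u v ↔ G.Adj u v ∧ 0 < w s(u, v) := fun u v => supp_adj w u v
  have hHG : H ≤ G := by
    intro u v huv
    exact ((hadj u v).1 huv).1
  let I := {C : H.ConnectedComponent // ∃ v ∈ C.supp, (H.neighborSet v).Nonempty}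
  have : Finite I := inferInstance
  have : Fintype I := Fintype.ofFinite I
  let F : I → G.Subgraph := fun i => compSub hHG i.1
  have hF : ∀ i, IsCircuit (F i) := by
    rintro ⟨C, v, hvC, hv⟩
    refine ⟨compSub_connected _ _, ?_⟩
    intro u hu
    have hu' : u ∈ C.supp := hu
    have hnb : (compSub hHG C).neighborSet u = H.neighborSet u := by
      ext t
      constructor
      · intro h; exact h.1
      · intro h; exact ⟨h, hu'⟩
    show ((compSub hHG C).neighborSet u).ncard = 2
    rw [hnb]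
    apply h2
    rw [ConnectedComponent.mem_supp_iff] at hu' hvC
    have hr : H.Reachable u v := by
      rw [← ConnectedComponent.eq, hu', hvC]
    obtain ⟨q⟩ := hr
    cases q with
    | nil => exact hv
    | cons h q => exact ⟨_, h⟩
  have hcount : ∀ e ∈ G.edgeSet, {i : I | e ∈ (F i).edgeSet}.ncard = w e := by
    intro e
    induction e using Sym2.ind with
    | _ u v =>
    intro he
    have hle := h1 _ he
    rw [mem_edgeSet] at he
    by_cases hw : 0 < w s(u, v)
    · have hH : H.Adj u v := (hadj u v).2 ⟨he, hw⟩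
      have hset : {i : I | s(u, v) ∈ (F i).edgeSet} =
          {⟨H.connectedComponentMk u, u, rfl, ⟨v, hH⟩⟩} := by
        ext ⟨C, hC⟩
        constructor
        · intro hi
          have hi' : H.Adj u v ∧ u ∈ C.supp := hi
          have h5 := hi'.2
          rw [ConnectedComponent.mem_supp_iff] at h5
          rw [Set.mem_singleton_iff]
          exact Subtype.ext h5.symm
        · intro hi
          rw [Set.mem_singleton_iff] at hi
          have h6 : C = H.connectedComponentMk u := congrArg Subtype.val hi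
          show H.Adj u v ∧ u ∈ C.supp
          rw [h6]
          exact ⟨hH, rfl⟩
      rw [hset, Set.ncard_singleton]
      omega
    · have hset : {i : I | s(u, v) ∈ (F i).edgeSet} = ∅ := by
        rw [Set.eq_empty_iff_forall_notMem]
        intro i hi
        have hi' : H.Adj u v ∧ u ∈ i.1.supp := hi
        exact hw ((hadj u v).1 hi'.1).2
      rw [hset, Set.ncard_empty]
      omega
  let e := Fintype.equivFin I
  refine ⟨Fintype.card I, fun j => F (e.symm j), fun j => hF _, ?_⟩
  intro d hd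
  rw [← hcount d hd]
  have h3 : {i : I | d ∈ (F i).edgeSet} = e.symm '' {j | d ∈ (F (e.symm j)).edgeSet} := by
    ext i
    constructor
    · intro hi
      exact ⟨e i, by rw [Set.mem_ofPred_eq, Equiv.symm_apply_apply]; exact hi,
        Equiv.symm_apply_apply _ _⟩
    · rintro ⟨j, hj, rfl⟩
      exact hj
  rw [h3, Set.ncard_image_of_injective _ e.symm.injective]

section

variable {G : SimpleGraph V} {n : ℕ} {x y : ZMod n → V} {p : Equiv.Perm (ZMod n)}

/-- **a side without own edges has a faithful circuit cover** -/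
theorem fcc_W [Finite V] (hcub : ∀ v, (G.neighborSet v).ncard = 3) (N : Num G x y p)
    (a b : ZMod n → ZMod 2) (hab : Ev p a b)
    (hown : ∀ i, ¬ (a (i - 1) = 1 ∧ a i = 1)) :
    HasFaithfulCircuitCover G (W x y p a b) := by
  classical
  have hle : ∀ e ∈ G.edgeSet, W x y p a b e ≤ 1 := by
    intro e he
    rcases N.edge e he with ⟨k, rfl⟩ | ⟨k, rfl⟩ | ⟨k, rfl⟩
    · rw [W_x N.hn N.ix N.hxy]
      split_ifs <;> omega
    · rw [W_y N.hn N.iy N.hxy]
      split_ifs <;> omega
    · rw [W_m N.ix N.hxy]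
      by_cases h1 : a k = 1
      · by_cases h2 : a (k - 1) = 1
        · exact absurd ⟨h2, h1⟩ (hown k)
        · rw [if_pos h1, if_neg h2]
      · rw [if_neg h1]
        split_ifs <;> omega
  refine fcc_of_cycles G _ hle ?_
  intro v hv
  have h1 : {u | (support G (W x y p a b)).Adj v u ∧ Odd (W x y p a b s(v, u))} =
      (support G (W x y p a b)).neighborSet v := by
    ext u
    constructor
    · intro h
      exact h.1
    · intro h
      have h3 : (support G (W x y p a b)).Adj v u := h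
      have h4 := (supp_adj _ _ _).1 h3
      have h5 := hle s(v, u) h4.1
      refine ⟨h3, ?_⟩
      have h6 : W x y p a b s(v, u) = 1 := by omega
      rw [h6]
      exact odd_one
  have h2 := eulerian_W N a b hab v
  rw [h1] at h2
  have h3 : ((support G (W x y p a b)).neighborSet v).ncard ≤ 3 := by
    rw [← hcub v]
    refine Set.ncard_le_ncard ?_ (Set.toFinite _)
    intro u hu
    exact ((supp_adj _ _ _).1 hu).1
  have h4 : ((support G (W x y p a b)).neighborSet v).ncard ≠ 0 := by
    exact (Set.ncard_pos (Set.toFinite _)).2 hv |>.ne'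
  obtain ⟨k, hk⟩ := h2
  omega

end

/-- **a word with a side which has a faithful circuit cover splits** -/
theorem splits_of_fcc [Finite V] (G : SimpleGraph V) (M C₁ C₂ : G.Subgraph)
    (h : IsPermutationGraph G M C₁ C₂) (hc : ∀ C : G.Subgraph, ¬ Removable G (wt M) C) {n : ℕ}
    (hn : 3 ≤ n) (x y : ZMod n → V) (p : Equiv.Perm (ZMod n)) (hx : Numb C₁ x) (hy : Numb C₂ y)
    (hM : ∀ i, M.Adj (x i) (y (p i))) (a b : ZMod n → ZMod 2) (hab : Ev p a b)
    (hz : ∀ i, (word p a b i).1 = 0 → (word p a b i).2 = 0)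
    (h0 : ∃ i, a i = 1) (hF : HasFaithfulCircuitCover G (W x y p a b)) :
    ∃ g s t, Ev p s t ∧ word p a b g = 0 ∧ word p s t g = (0, 1) ∧
      ∀ i, i ≠ g → word p s t i = 0 ∨ word p s t i = word p a b i := by
  classical
  have : NeZero n := ⟨by omega⟩
  have N := num_of G M C₁ C₂ h hn x y p hx hy hM
  by_contra hcon
  have b2 : Bridgeless (support G (W x y p (fun i => 1 + a i) (fun j => 1 + b j))) := by
    by_contra hb
    refine hcon ?_
    have hz' : ∀ i, (word p (fun i => 1 + a i) (fun j => 1 + b j) i).1 = 0 →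
        (word p (fun i => 1 + a i) (fun j => 1 + b j) i).2 = 0 := by
      intro i
      rw [word_flip]; exact hz i
    obtain ⟨g, s, t, h1, h2, h3, h4⟩ :=
      split_of_bridge N _ _ (ev_flip hab) hz' hb
    refine ⟨g, s, t, h1, by rw [← word_flip]; exact h2, h3, fun i hi => ?_⟩
    rw [← word_flip p a b i]
    exact h4 i hi
  have wM : ∀ i, wt M s(x i, y (p i)) = 2 := by
    intro i
    unfold wt
    rw [if_pos]
    exact hM i
  have wx : ∀ i, wt M s(x i, x (i + 1)) = 1 := by
    intro i
    unfold wt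
    rw [if_neg]
    intro hm
    exact ((h.union _ _).2 (Or.inl ((hx.2.2 i _).2 (Or.inr rfl)))).2 hm
  have wy : ∀ i, wt M s(y i, y (i + 1)) = 1 := by
    intro i
    unfold wt
    rw [if_neg]
    intro hm
    exact ((h.union _ _).2 (Or.inr ((hy.2.2 i _).2 (Or.inr rfl)))).2 hm
  have hsum : ∀ e ∈ G.edgeSet, wt M e = W x y p a b e +
      W x y p (fun i => 1 + a i) (fun j => 1 + b j) e := by
    intro e he
    rcases N.edge e he with ⟨k, rfl⟩ | ⟨k, rfl⟩ | ⟨k, rfl⟩
    · rw [wx, W_x hn N.ix N.hxy, W_x hn N.ix N.hxy]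
      rcases Pool.Agent.H59.Pent.z2 (a k) with h1 | h1 <;> rw [h1] <;> decide
    · rw [wy, W_y hn N.iy N.hxy, W_y hn N.iy N.hxy]
      rcases Pool.Agent.H59.Pent.z2 (b k) with h1 | h1 <;> rw [h1] <;> decide
    · rw [wM, W_m N.ix N.hxy, W_m N.ix N.hxy]
      rcases Pool.Agent.H59.Pent.z2 (a k) with h1 | h1 <;>
        rcases Pool.Agent.H59.Pent.z2 (a (k - 1)) with h2 | h2 <;>
        rw [h1, h2] <;> decide
  obtain ⟨i₀, hi₀⟩ := h0
  have hne : ∃ e ∈ G.edgeSet, W x y p a b e ≠ 0 := by
    refine ⟨s(x i₀, x (i₀ + 1)), N.gx i₀, ?_⟩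
    rw [W_x hn N.ix N.hxy, if_pos hi₀]
    exact one_ne_zero
  obtain ⟨C, hC⟩ := Pool.Agent.H97.Sum.exists_removable G (wt M) (W x y p a b)
    (W x y p (fun i => 1 + a i) (fun j => 1 + b j)) hsum hne
    (eulerian_W N _ _ (ev_flip hab)) b2 hF
  exact hc C hC

/-- **a word with a side without own edges splits** -/
theorem splits_of_no_own [Finite V] (G : SimpleGraph V) (M C₁ C₂ : G.Subgraph)
    (h : IsPermutationGraph G M C₁ C₂) (hc : ∀ C : G.Subgraph, ¬ Removable G (wt M) C) {n : ℕ}
    (hn : 3 ≤ n) (x y : ZMod n → V) (p : Equiv.Perm (ZMod n)) (hx : Numb C₁ x) (hy : Numb C₂ y)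
    (hM : ∀ i, M.Adj (x i) (y (p i))) (a b : ZMod n → ZMod 2) (hab : Ev p a b)
    (hz : ∀ i, (word p a b i).1 = 0 → (word p a b i).2 = 0)
    (h0 : ∃ i, a i = 1) (hown : ∀ i, ¬ (a (i - 1) = 1 ∧ a i = 1)) :
    ∃ g s t, Ev p s t ∧ word p a b g = 0 ∧ word p s t g = (0, 1) ∧
      ∀ i, i ≠ g → word p s t i = 0 ∨ word p s t i = word p a b i := by
  have N := num_of G M C₁ C₂ h hn x y p hx hy hM
  exact splits_of_fcc G M C₁ C₂ h hc hn x y p hx hy hM a b hab hz h0
    (fcc_W h.cubic N a b hab hown)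

/-- **a word with a side which is the disjoint union of two sides without own edges splits** -/
theorem splits_of_two [Finite V] (G : SimpleGraph V) (M C₁ C₂ : G.Subgraph)
    (h : IsPermutationGraph G M C₁ C₂) (hc : ∀ C : G.Subgraph, ¬ Removable G (wt M) C) {n : ℕ}
    (hn : 3 ≤ n) (x y : ZMod n → V) (p : Equiv.Perm (ZMod n)) (hx : Numb C₁ x) (hy : Numb C₂ y)
    (hM : ∀ i, M.Adj (x i) (y (p i))) (a b a' b' : ZMod n → ZMod 2) (hab : Ev p a b)
    (hab' : Ev p a' b') (hd : ∀ i, a i = 0 ∨ a' i = 0) (hd' : ∀ i, b i = 0 ∨ b' i = 0)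
    (hz : ∀ i, (word p (fun i => a i + a' i) (fun j => b j + b' j) i).1 = 0 →
      (word p (fun i => a i + a' i) (fun j => b j + b' j) i).2 = 0)
    (h0 : ∃ i, a i + a' i = 1) (hown : ∀ i, ¬ (a (i - 1) = 1 ∧ a i = 1))
    (hown' : ∀ i, ¬ (a' (i - 1) = 1 ∧ a' i = 1)) :
    ∃ g s t, Ev p s t ∧ word p (fun i => a i + a' i) (fun j => b j + b' j) g = 0 ∧
      word p s t g = (0, 1) ∧ ∀ i, i ≠ g → word p s t i = 0 ∨
        word p s t i = word p (fun i => a i + a' i) (fun j => b j + b' j) i := by
  classical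
  have N := num_of G M C₁ C₂ h hn x y p hx hy hM
  have hev : Ev p (fun i => a i + a' i) (fun j => b j + b' j) := by
    intro i
    have h1 := hab i
    have h2 := hab' i
    show a (i - 1) + a' (i - 1) + (a i + a' i) = b (p i - 1) + b' (p i - 1) + (b (p i) + b' (p i))
    linear_combination h1 + h2
  refine splits_of_fcc G M C₁ C₂ h hc hn x y p hx hy hM _ _ hev hz h0 ?_
  refine fcc_add G _ _ _ ?_ (fcc_W h.cubic N a b hab hown) (fcc_W h.cubic N a' b' hab' hown')
  have key : ∀ s t : ZMod 2, (s = 0 ∨ t = 0) →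
      (if s + t = 1 then 1 else 0) = (if s = 1 then 1 else 0) + (if t = 1 then 1 else 0 : ℕ) := by
    decide
  intro e he
  rcases N.edge e he with ⟨k, rfl⟩ | ⟨k, rfl⟩ | ⟨k, rfl⟩
  · rw [W_x hn N.ix N.hxy, W_x hn N.ix N.hxy, W_x hn N.ix N.hxy]
    exact key _ _ (hd k)
  · rw [W_y hn N.iy N.hxy, W_y hn N.iy N.hxy, W_y hn N.iy N.hxy]
    exact key _ _ (hd' k)
  · rw [W_m N.ix N.hxy, W_m N.ix N.hxy, W_m N.ix N.hxy]
    have k1 := key _ _ (hd k)
    have k2 := key _ _ (hd (k - 1))
    show (if a k + a' k = 1 then 1 else 0) + (if a (k - 1) + a' (k - 1) = 1 then 1 else 0) =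
      ((if a k = 1 then 1 else 0) + (if a (k - 1) = 1 then 1 else 0)) +
      ((if a' k = 1 then 1 else 0) + (if a' (k - 1) = 1 then 1 else 0))
    omega

end Pool.Agent.H74.WC
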